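import Mathlib

set_option autoImplicit false

namespace Pool.Agent.Results.MP_2093e0_al.Equivalence

open Polynomial

universe u

/-- `a` is strongly nil-clean: the sum of an idempotent and a nilpotent that commute. -/
def StronglyNilClean {R : Type u} [Ring R] (a : R) : Prop :=
  ∃ e b : R, e * e = e ∧ IsNilpotent b ∧ e * b = b * e ∧ a = e + b

/-- `R` is strongly weakly nil-clean: for every `a`, one of `a`, `-a` is strongly nil-clean. -/
def StronglyWeaklyNilClean (R : Type u) [Ring R] : Prop :=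
  ∀ a : R, StronglyNilClean a ∨ StronglyNilClean (-a)

/-- `R` is weakly UU: every unit is of the form `n + 1` or `n - 1` with `n` nilpotent. -/
def WUU (R : Type u) [Ring R] : Prop :=
  ∀ v : Rˣ, ∃ n : R, IsNilpotent n ∧ ((v : R) = n + 1 ∨ (v : R) = n - 1)

/-- `R` is semi-potent: every right ideal not contained in the Jacobson radical contains a nonzero
idempotent. -/
def SemiPotent (R : Type u) [Ring R] : Prop :=
  ∀ I : Submodule Rᵐᵒᵖ R, ¬ (∀ x ∈ I, x ∈ Ring.jacobson R) → ∃ e ∈ I, e * e = e ∧ e ≠ 0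

section basics

variable {R : Type u} [Ring R]

theorem isUnit_one_add {j : R} (hj : j ∈ Ring.jacobson R) : IsUnit (1 + j) := by
  have key : ∀ a ∈ Ring.jacobson R, ∃ z : R, z * (1 + a) = 1 := by
    intro a ha
    rw [← Ideal.jacobson_bot, Ideal.mem_jacobson_iff] at ha
    obtain ⟨z, hz⟩ := ha 1
    rw [Ideal.mem_bot] at hz
    refine ⟨z, ?_⟩
    have : z * (1 + a) = z * 1 * a + z - 1 + 1 := by noncomm_ring
    rw [this, hz, zero_add]
  obtain ⟨z, hz⟩ := key j hj
  have h1 : -z * j ∈ Ring.jacobson R := Ideal.mul_mem_left _ _ hj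
  obtain ⟨w, hw⟩ := key _ h1
  have hz' : (1 : R) + -z * j = z := by
    have : z * (1 + j) = z + z * j := by noncomm_ring
    rw [this] at hz
    rw [neg_mul, ← hz]
    abel
  rw [hz'] at hw
  have hw' : w = 1 + j := by
    calc w = w * (z * (1 + j)) := by rw [hz, mul_one]
      _ = (w * z) * (1 + j) := by rw [mul_assoc]
      _ = 1 + j := by rw [hw, one_mul]
  rw [hw'] at hw
  exact ⟨⟨1 + j, z, hw, hz⟩, rfl⟩

/-- If `1 + x r` is a unit for every `r` then `x` lies in the Jacobson radical. -/
theorem mem_jacobson_of_units {x : R} (h : ∀ r, IsUnit (1 + x * r)) : x ∈ Ring.jacobson R := by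
  rw [← Ideal.jacobson_bot, Ideal.mem_jacobson_iff]
  intro y
  -- `1 + y x` is a unit as `1 + x y` is one
  obtain ⟨v, hv⟩ := h y
  refine ⟨1 - y * ((v⁻¹ : Rˣ) : R) * x, ?_⟩
  rw [Ideal.mem_bot]
  have h1 : ((v⁻¹ : Rˣ) : R) * (1 + x * y) = 1 := by rw [← hv]; simp
  have h2 : ((v⁻¹ : Rˣ) : R) * (x * y) = 1 - ((v⁻¹ : Rˣ) : R) := by
    rw [mul_add, mul_one] at h1
    rw [← h1]; abel
  calc (1 - y * ((v⁻¹ : Rˣ) : R) * x) * y * x + (1 - y * ((v⁻¹ : Rˣ) : R) * x) - 1
      = y * x - y * (((v⁻¹ : Rˣ) : R) * (x * y)) * x - y * ((v⁻¹ : Rˣ) : R) * x := by noncomm_ring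
    _ = 0 := by rw [h2]; noncomm_ring

/-- A unit plus an element of the Jacobson radical is a unit. -/
theorem isUnit_add_mem {a j : R} (ha : IsUnit a) (hj : j ∈ Ring.jacobson R) : IsUnit (a + j) := by
  obtain ⟨v, rfl⟩ := ha
  have : (v : R) + j = v * (1 + ((v⁻¹ : Rˣ) : R) * j) := by
    rw [mul_add, mul_one, ← mul_assoc, Units.mul_inv, one_mul]
  rw [this]
  exact v.isUnit.mul (isUnit_one_add (Ideal.mul_mem_left _ _ hj))

end basics

section forward

variable {R : Type u} [Ring R]

theorem idem_of_unit {e : R} (he : e * e = e) (hu : IsUnit e) : e = 1 := by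
  obtain ⟨v, rfl⟩ := hu
  have : ((v⁻¹ : Rˣ) : R) * (v * v) = ((v⁻¹ : Rˣ) : R) * v := by rw [he]
  simpa using this

theorem snc_unit {v : R} (hv : IsUnit v) (h : StronglyNilClean v) : IsNilpotent (v - 1) := by
  obtain ⟨e, b, he, hb, hc, rfl⟩ := h
  have hcomm : Commute (e + b) b := by
    show (e + b) * b = b * (e + b)
    rw [add_mul, mul_add, hc]
  have h1 : IsUnit (e + b - b) := by
    rw [sub_eq_add_neg]
    exact (hb.neg.isUnit_add_left_of_commute hv hcomm.neg_right.symm)
  have h2 : e = 1 := idem_of_unit he (by simpa using h1)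
  rw [h2]
  simpa using hb

theorem wuu_of_swnc (h : StronglyWeaklyNilClean R) : WUU R := by
  intro v
  rcases h (v : R) with h1 | h1
  · exact ⟨v - 1, snc_unit v.isUnit h1, Or.inl (by abel)⟩
  · have h2 := snc_unit v.isUnit.neg h1
    refine ⟨v + 1, ?_, Or.inr (by abel)⟩
    have : (v : R) + 1 = -(-(v : R) - 1) := by abel
    rw [this]
    exact h2.neg

theorem semiPotent_of_swnc (h : StronglyWeaklyNilClean R) : SemiPotent R := by
  intro I hI
  push Not at hI
  obtain ⟨x, hxI, hx⟩ := hI
  have h1 : ∃ r, ¬ IsUnit (1 + x * r) := by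
    by_contra hcon
    push Not at hcon
    exact hx (mem_jacobson_of_units hcon)
  obtain ⟨r, hr⟩ := h1
  have hmul : ∀ y ∈ I, ∀ s : R, y * s ∈ I := fun y hy s => I.smul_mem (MulOpposite.op s) hy
  -- main step
  have main : ∀ a ∈ I, StronglyNilClean a → ¬ IsNilpotent a → ∃ e ∈ I, e * e = e ∧ e ≠ 0 := by
    rintro a ha ⟨e, b, he, hb, hc, rfl⟩ hn
    refine ⟨e, ?_, he, ?_⟩
    · obtain ⟨v, hv⟩ := hb.isUnit_one_add
      have h2 : e = (e + b) * (e * ((v⁻¹ : Rˣ) : R)) := by
        have h3 : (e + b) * e = e * v := by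
          rw [hv, add_mul, he, mul_add, mul_one, hc]
        rw [← mul_assoc, h3, mul_assoc, Units.mul_inv, mul_one]
      rw [h2]
      exact hmul _ ha _
    · rintro rfl
      apply hn
      simpa using hb
  have hnil : ¬ IsNilpotent (x * r) := fun hn => hr hn.isUnit_one_add
  rcases h (x * r) with h2 | h2
  · exact main _ (hmul x hxI r) h2 hnil
  · exact main _ (I.neg_mem (hmul x hxI r)) h2 (fun hn => hnil (by simpa using hn.neg))

end forward

section reduced

variable {S : Type u} [Ring S]

/-- The quotient ring facts used: every nonzero element `x` has a multiple `x y` which is a nonzero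
idempotent, and units are `±1` plus nilpotents. -/
structure Good (S : Type u) [Ring S] : Prop where
  idem : ∀ x : S, x ≠ 0 → ∃ y : S, x * y * (x * y) = x * y ∧ x * y ≠ 0
  unit : ∀ v : S, IsUnit v → IsNilpotent (v - 1) ∨ IsNilpotent (v + 1)

theorem no_w (hS : Good S) {g w : S} (hg : g * g = g) (hgw : g * w = w) (hwg : w * g = w)
    (hw : w * w = w + g) : g = 0 := by
  have hu : IsUnit (1 - g + w) := by
    refine ⟨⟨1 - g + w, 1 - g - g + w, ?_, ?_⟩, rfl⟩
    · have : (1 - g + w) * (1 - g - g + w) = 1 - g - g - g + g * g + g * g + w * w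
          - g * w + w + w - w * g - w * g := by noncomm_ring
      rw [this, hg, hw, hgw, hwg]; abel
    · have : (1 - g - g + w) * (1 - g + w) = 1 - g - g - g + g * g + g * g + w * w
          - g * w - g * w + w + w - w * g := by noncomm_ring
      rw [this, hg, hw, hgw, hwg]; abel
  have hcomm : Commute w (w - g) := by
    show w * (w - g) = (w - g) * w
    rw [mul_sub, sub_mul, hgw, hwg]
  have hprod : w * (w - g) = g := by
    rw [mul_sub, hw, hwg]; abel
  have hgpow : ∀ n : ℕ, g ^ (n + 1) = g := by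
    intro n
    induction n with
    | zero => simp
    | succ n ih => rw [pow_succ, ih, hg]
  have fin : IsNilpotent g → g = 0 := by
    rintro ⟨n, hn⟩
    rw [← hgpow n, pow_succ, hn, zero_mul]
  rcases hS.unit _ hu with h | h
  · have h1 : (1 - g + w) - 1 = w - g := by abel
    rw [h1] at h
    apply fin
    rw [← hprod]
    exact hcomm.isNilpotent_mul_left h
  · have hcg : Commute g (1 - g + w + 1) := by
      show g * (1 - g + w + 1) = (1 - g + w + 1) * g
      simp only [mul_add, add_mul, mul_sub, sub_mul, mul_one, one_mul, hg, hgw, hwg]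
    have h2 : IsNilpotent (g * (1 - g + w + 1)) := hcg.isNilpotent_mul_left h
    have h3 : g * (1 - g + w + 1) = w * w := by
      rw [hw]
      simp only [mul_add, mul_sub, mul_one, hg, hgw]
      abel
    rw [h3, ← sq] at h2
    have h4 : IsNilpotent w := by
      obtain ⟨n, hn⟩ := h2
      exact ⟨2 * n, by rw [pow_mul, hn]⟩
    apply fin
    rw [← hprod]
    exact hcomm.isNilpotent_mul_right h4

/-- `S` is reduced. -/
theorem sq_zero (hS : Good S) {x : S} (hx : x * x = 0) : x = 0 := by
  by_contra hne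
  obtain ⟨y, hy, hy0⟩ := hS.idem x hne
  obtain ⟨e, he⟩ : ∃ e, e = x * y := ⟨_, rfl⟩
  rw [← he] at hy hy0
  obtain ⟨z, hz⟩ : ∃ z, z = y * e := ⟨_, rfl⟩
  have hxz : x * z = e := by rw [hz, ← mul_assoc, ← he, hy]
  obtain ⟨f, hf⟩ : ∃ f, f = z * x := ⟨_, rfl⟩
  have hff : f * f = f := by
    rw [hf]
    calc z * x * (z * x) = z * (x * z) * x := by noncomm_ring
      _ = z * x := by rw [hxz, hz, mul_assoc y e e, hy]
  have hfe : f * e = 0 := by
    rw [hf, he]
    calc z * x * (x * y) = z * (x * x) * y := by noncomm_ring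
      _ = 0 := by rw [hx]; simp
  have hfx : f * x = 0 := by
    rw [hf, mul_assoc, hx, mul_zero]
  have hex : e * x = x * f := by rw [← hxz, hf, mul_assoc]
  have hxf : x * f = e * x := hex.symm
  -- the orthogonal idempotents
  obtain ⟨a, ha⟩ : ∃ a, a = e - e * f := ⟨_, rfl⟩
  -- matrix units
  obtain ⟨p, hp⟩ : ∃ p, p = e * x := ⟨_, rfl⟩
  obtain ⟨q, hq⟩ : ∃ q, q = f * z * a := ⟨_, rfl⟩
  have hae : a * e = e := by rw [ha, sub_mul, mul_assoc, hfe, mul_zero, sub_zero, hy]
  have hea : e * a = a := by rw [ha, mul_sub, hy, ← mul_assoc, hy]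
  have hfa : f * a = 0 := by rw [ha, mul_sub, hfe, ← mul_assoc, hfe, zero_mul, sub_zero]
  have haa : a * a = a := by
    calc a * a = (e - e * f) * a := by rw [← ha]
      _ = a := by rw [sub_mul, mul_assoc, hea, hfa, mul_zero, sub_zero]
  have haf : a * f = 0 := by rw [ha, sub_mul, mul_assoc, hff, sub_self]
  have hap : a * p = p := by rw [hp, ← mul_assoc, hae]
  have hpf : p * f = p := by
    rw [hp, mul_assoc, hxf, ← mul_assoc, hy]
  have hfp : f * p = 0 := by rw [hp, ← mul_assoc, hfe, zero_mul]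
  have hpa : p * a = 0 := by
    calc p * a = (p * f) * a := by rw [hpf]
      _ = 0 := by rw [mul_assoc, hfa, mul_zero]
  have hfq : f * q = q := by rw [hq, ← mul_assoc, ← mul_assoc, hff]
  have hqa : q * a = q := by rw [hq, mul_assoc, haa]
  have haq : a * q = 0 := by
    calc a * q = a * (f * q) := by rw [hfq]
      _ = 0 := by rw [← mul_assoc, haf, zero_mul]
  have hqf : q * f = 0 := by
    calc q * f = (q * a) * f := by rw [hqa]
      _ = 0 := by rw [mul_assoc, haf, mul_zero]
  have hpq : p * q = a := by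
    rw [hq, ← mul_assoc, ← mul_assoc, hpf, hp, mul_assoc e x z, hxz, hy, hea]
  have hqp : q * p = f := by
    rw [hq, mul_assoc, hap, hp, mul_assoc f z]
    have : z * (e * x) = f := by
      rw [← mul_assoc, hz, mul_assoc y e e, hy, ← hz, hf]
    rw [this, hff]
  have hpp : p * p = 0 := by
    calc p * p = (p * f) * p := by rw [hpf]
      _ = 0 := by rw [mul_assoc, hfp, mul_zero]
  have hqq : q * q = 0 := by
    calc q * q = (q * a) * q := by rw [hqa]
      _ = 0 := by rw [mul_assoc, haq, mul_zero]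
  have hg : (a + f) = 0 := by
    refine no_w hS (g := a + f) (w := p + q + f) ?_ ?_ ?_ ?_
    · simp only [mul_add, add_mul, haa, hfa, haf, hff]; abel
    · simp only [mul_add, add_mul, hap, haq, haf, hfp, hfq, hff]; abel
    · simp only [mul_add, add_mul, hpa, hqa, hfa, hpf, hqf, hff]; abel
    · simp only [mul_add, add_mul, hpp, hpq, hpf, hqp, hqq, hqf, hfp, hfq, hff]; abel
  have ha0 : a = 0 := by
    have := congrArg (fun t => a * t) hg
    simpa [mul_add, haa, haf] using this
  apply hy0
  rw [← hae, ha0, zero_mul]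

theorem isReduced (hS : Good S) : IsReduced S :=
  (isReduced_iff_pow_one_lt 2 (by norm_num)).2 fun x hx => sq_zero hS (by rwa [sq] at hx)

theorem idem_central (hS : Good S) {e : S} (he : e * e = e) (r : S) : e * r = r * e := by
  have h1 : e * r - e * r * e = 0 := by
    apply sq_zero hS
    have : (e * r - e * r * e) * (e * r - e * r * e) =
        e * r * e * r - e * r * e * r * e - e * r * (e * e) * r + e * r * (e * e) * r * e := by
      noncomm_ring
    rw [this, he]; abel
  have h2 : r * e - e * r * e = 0 := by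
    apply sq_zero hS
    have : (r * e - e * r * e) * (r * e - e * r * e) =
        r * e * r * e - r * (e * e) * r * e - e * r * e * r * e + e * r * (e * e) * r * e := by
      noncomm_ring
    rw [this, he]; abel
  rw [sub_eq_zero] at h1 h2
  rw [h1, h2]

theorem unit_pm (hS : Good S) {v : S} (hv : IsUnit v) : v = 1 ∨ v = -1 := by
  have := isReduced hS
  rcases hS.unit v hv with h | h
  · left; exact sub_eq_zero.1 h.eq_zero
  · right; exact eq_neg_of_add_eq_zero_left h.eq_zero

theorem dedekind (hS : Good S) {v w : S} (h : v * w = 1) : w * v = 1 := by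
  have h1 : (w * v) * (w * v) = w * v := by
    calc (w * v) * (w * v) = w * (v * w) * v := by noncomm_ring
      _ = w * v := by rw [h, mul_one]
  calc w * v = (w * v) * (v * w) := by rw [h, mul_one]
    _ = ((w * v) * v) * w := by rw [mul_assoc (w * v)]
    _ = (v * (w * v)) * w := by rw [idem_central hS h1 v]
    _ = (v * w) * (v * w) := by noncomm_ring
    _ = 1 := by rw [h, mul_one]

theorem key (hS : Good S) {x : S} (hx : x ≠ 0) :
    ∃ e : S, e * e = e ∧ e ≠ 0 ∧ (x * e = e ∨ x * e = -e) := by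
  obtain ⟨y, hy, hy0⟩ := hS.idem x hx
  obtain ⟨e, he⟩ : ∃ e, e = x * y := ⟨_, rfl⟩
  rw [← he] at hy hy0
  have hc := idem_central hS hy
  have h1 : (x * e + (1 - e)) * (y * e + (1 - e)) = 1 := by
    have h2 : (x * e + (1 - e)) * (y * e + (1 - e)) =
        x * (e * y) * e + x * e - x * (e * e) + y * e - (e * y) * e + 1 - e - e + e * e := by
      noncomm_ring
    rw [h2, hc y, hy, ← mul_assoc x y e, ← he, hy, mul_assoc y e e, hy]
    abel
  have hu : IsUnit (x * e + (1 - e)) := ⟨⟨_, _, h1, dedekind hS h1⟩, rfl⟩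
  refine ⟨e, hy, hy0, ?_⟩
  have h3 : (x * e + (1 - e)) * e = x * e := by
    have : (x * e + (1 - e)) * e = x * (e * e) + e - e * e := by noncomm_ring
    rw [this, hy]; abel
  rcases unit_pm hS hu with h | h
  · left; rw [← h3, h, one_mul]
  · right; rw [← h3, h]; simp

theorem cube (hS : Good S) (x : S) : x * x * x = x := by
  by_contra hne
  have hz : x * x * x - x ≠ 0 := sub_ne_zero.2 hne
  obtain ⟨e, he, he0, hze⟩ := key hS hz
  have hxe : x * e ≠ 0 := by
    intro h0
    have h1 : (x * x * x - x) * e = 0 := by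
      rw [sub_mul, mul_assoc, h0]; simp
    rw [h1] at hze
    rcases hze with h | h
    · exact he0 h.symm
    · exact he0 (by simpa using h.symm)
  obtain ⟨f, hf, hf0, hxf⟩ := key hS hxe
  have hc := idem_central hS he
  have hef : e * f = f := by
    rcases hxf with h | h
    · calc e * f = e * (x * e * f) := by rw [h]
        _ = (e * x) * e * f := by noncomm_ring
        _ = x * (e * e) * f := by rw [hc x]; noncomm_ring
        _ = f := by rw [he, h]
    · have h' : f = -(x * e * f) := by rw [h]; simp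
      calc e * f = e * -(x * e * f) := by rw [← h']
        _ = -((e * x) * e * f) := by noncomm_ring
        _ = -(x * (e * e) * f) := by rw [hc x]; noncomm_ring
        _ = f := by rw [he, ← h']
  have hxf' : x * f = f ∨ x * f = -f := by
    rw [mul_assoc, hef] at hxf
    exact hxf
  have hzf : (x * x * x - x) * f = 0 := by
    rw [sub_mul, mul_assoc, mul_assoc]
    rcases hxf' with h | h
    · rw [h, h, h]; simp
    · rw [h, mul_neg, h, neg_neg, h]; simp
  rw [← hef, ← mul_assoc] at hzf
  rcases hze with h | h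
  · rw [h, hef] at hzf; exact hf0 hzf
  · rw [h, neg_mul, hef] at hzf; exact hf0 (by simpa using hzf)

theorem idem_or (hS : Good S) (x : S) : x * x - x = 0 ∨ x * x + x = 0 := by
  have h3 := cube hS x
  have hu : (x + (1 - x * x)) * (x + (1 - x * x)) = 1 := by
    have : (x + (1 - x * x)) * (x + (1 - x * x)) =
        x + x - x * x * x - x * x * x + 1 + x * (x * x * x) - x * x := by noncomm_ring
    rw [this, h3]; abel
  rcases unit_pm hS ⟨⟨_, _, hu, hu⟩, rfl⟩ with h | h
  · left
    have : x * x - x = 1 - (x + (1 - x * x)) := by abel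
    rw [this]
    simp only [] at h
    rw [h, sub_self]
  · right
    simp only [] at h
    have h4 := congrArg (fun t => x * t) h
    have h5 : x * (x + (1 - x * x)) = x * x + x - x * x * x := by noncomm_ring
    simp only [h5, h3, mul_neg, mul_one] at h4
    have h6 : x * x + x = (x * x + x - x) + x := by abel
    rw [h6, h4]; simp

end reduced

section polynomial

variable {R : Type u} [Ring R]

/-- An element `a` with `a ^ 2 - a` nilpotent is strongly nil-clean. -/
theorem snc_of_nilpotent {a : R} (h : IsNilpotent (a * a - a)) : StronglyNilClean a := by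
  obtain ⟨N, hN⟩ := h
  -- one may take the exponent positive
  obtain ⟨N, hN, hpos⟩ : ∃ N : ℕ, (a * a - a) ^ N = 0 ∧ 0 < N :=
    ⟨N + 1, by rw [pow_succ, hN, zero_mul], Nat.succ_pos _⟩
  set φ : ℤ[X] →ₐ[ℤ] R := aeval a with hφ
  have hφX : φ X = a := aeval_X a
  set E : ℤ[X] := 1 - (1 - X ^ N) ^ N with hE
  have hker : φ ((X * X - X) ^ N) = 0 := by
    rw [map_pow, map_sub, map_mul, hφX, hN]
  have h1 : (X : ℤ[X]) ^ N ∣ E := by
    have := sub_dvd_pow_sub_pow (1 : ℤ[X]) (1 - X ^ N) N
    simpa using this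
  have h2 : (1 - X : ℤ[X]) ∣ 1 - X ^ N := by
    have := sub_dvd_pow_sub_pow (1 : ℤ[X]) X N
    simpa using this
  have h3 : (X * X - X : ℤ[X]) ^ N ∣ E * E - E := by
    have h4 : (X : ℤ[X]) ^ N * (1 - X) ^ N ∣ E * (1 - E) := by
      apply mul_dvd_mul h1
      have : 1 - E = (1 - X ^ N) ^ N := by rw [hE]; ring
      rw [this]
      exact pow_dvd_pow_of_dvd h2 N
    have h5 : (X * X - X : ℤ[X]) ^ N = (-1) ^ N * (X ^ N * (1 - X) ^ N) := by
      rw [← mul_pow, ← mul_pow]; ring
    have h6 : E * E - E = -(E * (1 - E)) := by ring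
    rw [h5, h6, dvd_neg]
    have hu : IsUnit ((-1 : ℤ[X]) ^ N) := (isUnit_one.neg).pow N
    exact (hu.mul_left_dvd).2 h4
  have h7 : (X * X - X : ℤ[X]) ∣ X - E := by
    have hX : (X : ℤ[X]) ∣ X - E := (dvd_refl X).sub ((dvd_pow_self X hpos.ne').trans h1)
    have hX1 : (X - 1 : ℤ[X]) ∣ X - E := by
      have e1 : X - E = (X - 1) + (1 - X ^ N) ^ N := by rw [hE]; ring
      rw [e1]
      refine (dvd_refl _).add ?_
      have : (X - 1 : ℤ[X]) ∣ 1 - X ^ N := by
        rw [← neg_dvd]; simpa using h2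
      exact this.trans (dvd_pow_self _ hpos.ne')
    have hcop : IsCoprime (X : ℤ[X]) (X - 1) := ⟨1, -1, by ring⟩
    have := hcop.mul_dvd hX hX1
    have e2 : (X * (X - 1) : ℤ[X]) = X * X - X := by ring
    rwa [e2] at this
  refine ⟨φ E, φ (X - E), ?_, ?_, ?_, ?_⟩
  · obtain ⟨c, hc⟩ := h3
    have := congrArg φ hc
    rw [map_mul φ (_ ^ N), hker, zero_mul, map_sub, map_mul, sub_eq_zero] at this
    exact this
  · obtain ⟨c, hc⟩ := h7
    refine ⟨N, ?_⟩
    rw [hc, ← map_pow, mul_pow, map_mul, hker, zero_mul]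
  · rw [← map_mul, ← map_mul, mul_comm]
  · rw [← map_add, add_sub_cancel, hφX]

end polynomial

section backward

variable {R : Type u} [Ring R]

theorem wuu' (h : WUU R) {v : R} (hv : IsUnit v) : IsNilpotent (v - 1) ∨ IsNilpotent (v + 1) := by
  obtain ⟨v, rfl⟩ := hv
  obtain ⟨n, hn, h1 | h1⟩ := h v
  · left; rw [h1]; simpa using hn
  · right; rw [h1]; simpa using hn

theorem nil_jacobson (h : WUU R) {j : R} (hj : j ∈ Ring.jacobson R) : IsNilpotent j := by
  rcases wuu' h (isUnit_one_add hj) with h1 | h1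
  · simpa using h1
  · have h2 : IsUnit (3 : R) := by
      have h3 : (3 : R) = (1 + (1 + j + 1)) + -j := by
        have : (3 : R) = 1 + 1 + 1 := by norm_num
        rw [this]; abel
      rw [h3]
      exact isUnit_add_mem h1.isUnit_one_add ((Ring.jacobson R).neg_mem hj)
    have h4 : IsNilpotent (2 : R) := by
      rcases wuu' h h2 with h3 | h3
      · have : (3 : R) - 1 = 2 := by norm_num
        rwa [this] at h3
      · have : (3 : R) + 1 = 2 ^ 2 := by norm_num
        rw [this] at h3
        obtain ⟨n, hn⟩ := h3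
        exact ⟨2 * n, by rw [pow_mul, hn]⟩
    have h5 : j = (1 + j + 1) - 2 := by
      have : (2 : R) = 1 + 1 := by norm_num
      rw [this]; abel
    rw [h5]
    refine Commute.isNilpotent_sub ?_ h1 h4
    exact (Nat.cast_commute 2 _).symm

/-- The quotient by the Jacobson radical. -/
theorem good (h : SemiPotent R) (hw : WUU R) : Good (R ⧸ Ring.jacobson R) where
  idem := by
    intro x hx
    obtain ⟨x, rfl⟩ := Ideal.Quotient.mk_surjective x
    have hx' : x ∉ Ring.jacobson R := fun hh => hx (Ideal.Quotient.eq_zero_iff_mem.2 hh)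
    obtain ⟨e, heI, he, he0⟩ := h (Submodule.span Rᵐᵒᵖ {x}) (fun hall =>
      hx' (hall x (Submodule.mem_span_singleton_self x)))
    obtain ⟨a, ha⟩ := Submodule.mem_span_singleton.1 heI
    have ha' : x * a.unop = e := ha
    refine ⟨Ideal.Quotient.mk _ a.unop, ?_, ?_⟩
    · rw [← map_mul, ha', ← map_mul, he]
    · rw [← map_mul, ha']
      intro h0
      have h1 : e ∈ Ring.jacobson R := Ideal.Quotient.eq_zero_iff_mem.1 h0
      have h2 : IsUnit (1 + -e) := isUnit_one_add ((Ring.jacobson R).neg_mem h1)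
      have h3 : (1 + -e) * (1 + -e) = 1 + -e := by
        have : (1 + -e) * (1 + -e) = 1 - e - e + e * e := by noncomm_ring
        rw [this, he]; abel
      have h4 := idem_of_unit h3 h2
      apply he0
      have : e = 1 - (1 + -e) := by abel
      rw [this, h4, sub_self]
  unit := by
    rintro v hv
    obtain ⟨⟨v, w, hvw, hwv⟩, rfl⟩ := hv
    obtain ⟨v, rfl⟩ := Ideal.Quotient.mk_surjective v
    obtain ⟨w, rfl⟩ := Ideal.Quotient.mk_surjective w
    have lift : ∀ {s t : R}, Ideal.Quotient.mk (Ring.jacobson R) s *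
        Ideal.Quotient.mk (Ring.jacobson R) t = 1 → IsUnit (s * t) := by
      intro s t hst
      have h1 : s * t - 1 ∈ Ring.jacobson R := by
        apply Ideal.Quotient.eq_zero_iff_mem.1
        rw [map_sub, map_mul, hst, map_one, sub_self]
      have := isUnit_one_add h1
      simpa using this
    have h1 := lift hvw
    have h2 := lift hwv
    have hv : IsUnit v := by
      obtain ⟨c, hc⟩ := h1
      obtain ⟨d, hd⟩ := h2
      have e1 : v * (w * ((c⁻¹ : Rˣ) : R)) = 1 := by rw [← mul_assoc, ← hc]; simp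
      have e2 : (((d⁻¹ : Rˣ) : R) * w) * v = 1 := by rw [mul_assoc, ← hd]; simp
      have e3 : ((d⁻¹ : Rˣ) : R) * w = w * ((c⁻¹ : Rˣ) : R) := by
        calc ((d⁻¹ : Rˣ) : R) * w = ((d⁻¹ : Rˣ) : R) * w * (v * (w * ((c⁻¹ : Rˣ) : R))) := by
              rw [e1, mul_one]
          _ = (((d⁻¹ : Rˣ) : R) * w) * v * (w * ((c⁻¹ : Rˣ) : R)) := by noncomm_ring
          _ = _ := by rw [e2, one_mul]
      exact ⟨⟨v, _, e1, by rw [← e3]; exact e2⟩, rfl⟩
    show IsNilpotent (Ideal.Quotient.mk (Ring.jacobson R) v - 1) ∨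
      IsNilpotent (Ideal.Quotient.mk (Ring.jacobson R) v + 1)
    rcases wuu' hw hv with h3 | h3
    · left
      have := h3.map (Ideal.Quotient.mk (Ring.jacobson R))
      simpa using this
    · right
      have := h3.map (Ideal.Quotient.mk (Ring.jacobson R))
      simpa using this

theorem swnc_of (h : SemiPotent R) (hw : WUU R) : StronglyWeaklyNilClean R := by
  intro a
  rcases idem_or (good h hw) (Ideal.Quotient.mk _ a) with h1 | h1
  · left
    apply snc_of_nilpotent
    apply nil_jacobson hw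
    apply Ideal.Quotient.eq_zero_iff_mem.1
    rw [map_sub, map_mul, h1]
  · right
    apply snc_of_nilpotent
    apply nil_jacobson hw
    apply Ideal.Quotient.eq_zero_iff_mem.1
    rw [neg_mul_neg, sub_neg_eq_add, map_add, map_mul, h1]

end backward

/-- A ring is strongly weakly nil-clean if and only if it is semi-potent and WUU. -/
theorem result (R : Type u) [Ring R] : StronglyWeaklyNilClean R ↔ SemiPotent R ∧ WUU R :=
  ⟨fun h => ⟨semiPotent_of_swnc h, wuu_of_swnc h⟩, fun h => swnc_of h.1 h.2⟩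

end Pool.Agent.Results.MP_2093e0_al.Equivalence
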